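import Pool.Agent.K1H28.BP.Sq

/-!
# The powers of the Beurling transform: a square function, and an explicit bound of `‖T ^ n‖_p`

Let `p ≥ 2` and `0 ≤ r < 1`.  The square function
`S_r f = (r² |f|² + (1 - r²)² ∑_{m ≥ 1} r^(2 (m - 1)) |T^m f|²)^(1/2)`
of ALL the powers of the Beurling transform satisfies `‖S_r f‖_p ≤ (p - 1) ‖f‖_p`; for `r = 0` this is
Iwaniec's inequality `‖T f‖_p ≤ (p - 1) ‖f‖_p`.

It follows that `‖T^n f‖_p ≤ C_n (p - 1) ‖f‖_p` for all `n ≥ 1`, `p ≥ 2` and all `f`, where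
`C_n = (n + 1)/2 · ((n + 1)/(n - 1))^((n - 1)/2) < (e/2) (n + 1)`, `C_1 = 1`.  So the inequality of the
question holds for all `n`, `p` and `f` up to the factor `(e/2) (1 + 1/n) n^(2/p)`.

Proof.  The starting files (`Pool/Agent/Y338/BP/G.lean`, based on Iwaniec's inequality, which is proved
there, and on linear changes of variables) give `‖φ(T)‖_p ≤ p - 1` for all the Moebius transformations
`φ(w) = (ζ w - r) / (1 - r ζ w)`, `|ζ| = 1`.  For `p ≥ 2` the mean over `ζ` and Parseval's identity in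
`ζ` give the square function (`Pool/Agent/K1H28/BP/`, with roots of unity and Fatou's lemma); the bound of
`T^n` is its `n`-th term for the best `r`, which is `r² = (n - 1)/(n + 1)`.
-/

set_option autoImplicit false

open MeasureTheory

namespace Pool.Agent.Results.MP_3dd6d4_an.SquareFunction

/-- The `n`-th power of the Beurling transform: the Fourier multiplier with symbol
`(conj ξ / ξ) ^ n`, in the literal form of the frozen statement. -/
noncomputable def T (n : ℕ) (f : ℂ → ℂ) (z : ℂ) : ℂ :=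
  ∫ ξ : ℂ,
    Complex.exp (2 * (Real.pi : ℂ) * Complex.I * (((z.re * ξ.re + z.im * ξ.im : ℝ)) : ℂ)) *
      ((starRingEnd ℂ ξ / ξ) ^ n *
        ∫ x : ℂ, Complex.exp (-(2 * (Real.pi : ℂ) * Complex.I *
          (((x.re * ξ.re + x.im * ξ.im : ℝ)) : ℂ))) * f x)

/-- The constant `C_n = (n + 1)/2 · ((n + 1)/(n - 1))^((n - 1)/2)` (`C_1 = 1`). -/
noncomputable def C (n : ℕ) : ℝ :=
  ((n : ℝ) + 1) / 2 * (((n : ℝ) + 1) / ((n : ℝ) - 1)) ^ (((n : ℝ) - 1) / 2)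

/-- **The powers of the Beurling transform.**  Let `p ≥ 2` and let `f` be a Schwartz function.
(1) For `0 ≤ r < 1` the `L^p` norm of
`(r² |f|² + (1 - r²)² ∑_{m ≥ 0} r^(2 m) |T^(m + 1) f|²)^(1/2)` is at most `(p - 1) ‖f‖_p`.
(2) For `n ≥ 1`, `‖T^n f‖_p ≤ C_n (p - 1) ‖f‖_p`, where `C_1 = 1` and `C_n < (e/2) (n + 1)`.
(3) For `n ≥ 1`, `‖T^n f‖_p` is at most `(e/2) (1 + 1/n) n^(2/p)` times the bound
`n^(1 - 2/p) (p - 1) ‖f‖_p` of the question. -/
theorem result (p : ℝ) (hp : 2 ≤ p) (f : SchwartzMap ℂ ℂ) :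
    (∀ r : ℝ, 0 ≤ r → r < 1 →
      (∀ z : ℂ, Summable fun m : ℕ => r ^ (2 * m) * ‖T (m + 1) f z‖ ^ 2) ∧
      eLpNorm (fun z : ℂ => √(r ^ 2 * ‖f z‖ ^ 2 +
          (1 - r ^ 2) ^ 2 * ∑' m : ℕ, r ^ (2 * m) * ‖T (m + 1) f z‖ ^ 2))
          (ENNReal.ofReal p) (volume : Measure ℂ)
        ≤ ENNReal.ofReal (p - 1) * eLpNorm f (ENNReal.ofReal p) (volume : Measure ℂ)) ∧
    (∀ n : ℕ, 1 ≤ n →
      eLpNorm (T n f) (ENNReal.ofReal p) (volume : Measure ℂ)
          ≤ ENNReal.ofReal (C n * (p - 1)) * eLpNorm f (ENNReal.ofReal p) (volume : Measure ℂ) ∧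
      C n < Real.exp 1 / 2 * (n + 1)) ∧
    C 1 = 1 ∧
    (∀ n : ℕ, 1 ≤ n →
      eLpNorm (T n f) (ENNReal.ofReal p) (volume : Measure ℂ)
          ≤ ENNReal.ofReal (Real.exp 1 / 2 * (1 + 1 / n) * (n : ℝ) ^ (2 / p) *
              ((n : ℝ) ^ (1 - 2 / p) * (p - 1))) *
            eLpNorm f (ENNReal.ofReal p) (volume : Measure ℂ)) := by
  have hU : ∀ n : ℕ, T n f = K1H28.BP.U f n := fun n => rfl
  refine ⟨fun r h0 h1 => ⟨fun z => ?_, ?_⟩, fun n hn => ⟨?_, K1H28.BP.CC_le hn⟩,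
    K1H28.BP.CC_one, fun n hn => ?_⟩
  · have hb : ∀ m : ℕ, r ^ (2 * m) * ‖T (m + 1) f z‖ ^ 2
        ≤ (r ^ 2) ^ m * (∫ ξ, ‖TH55.PowA.Ft f ξ‖) ^ 2 := by
      intro m
      rw [pow_mul]
      have h2 : ‖T (m + 1) f z‖ ≤ ∫ ξ, ‖TH55.PowA.Ft f ξ‖ := K1H28.BP.U_bdd f (m + 1) z
      gcongr
    refine Summable.of_nonneg_of_le (fun m => by positivity) hb ?_
    exact (summable_geometric_of_lt_one (by positivity) (by nlinarith)).mul_right _
  · rcases h0.eq_or_lt with h | h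
    · subst h
      exact K1H28.BP.SS_zero_bound hp f
    · exact K1H28.BP.SS_bound hp f h h1
  · exact K1H28.BP.CC_bound hp f hn
  · exact (K1H28.BP.CC_bound hp f hn).trans
      (mul_le_mul_left (ENNReal.ofReal_le_ofReal (K1H28.BP.CC_question hn hp)) _)

end Pool.Agent.Results.MP_3dd6d4_an.SquareFunction
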